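import Pool.Agent.Lib.helper24.SelfInt

set_option autoImplicit false

namespace Pool.Agent.Results.MP_5cfb27_co.Bounded

open Pool.Agent.Lib.helper24.SelfInt

/-- All tie-breaking discrepancies are bounded by `2 max S`, uniformly in the heap size. -/
theorem result (S : Finset ℕ) (hne : S.Nonempty) (hpos : ∀ s ∈ S, 0 < s)
    (c d c' d' : Bool) (h : ℕ) :
    |((out S c' d' h).1 : ℤ) - ((out S c d h).1 : ℤ)| ≤ 2 * (S.max' hne : ℤ) ∧
    |((out S c' d' h).2 : ℤ) - ((out S c d h).2 : ℤ)| ≤ 2 * (S.max' hne : ℤ) := by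
  have hm := S.max'_mem hne
  have hl := out_low S _ hm (hpos _ hm) (fun s hs => S.le_max' s hs)
  have a1 := hl h c d
  have a2 := hl h c' d'
  have b1 := out_sum S h c d
  have b2 := out_sum S h c' d'
  generalize S.max' hne = m at *
  constructor <;> rw [abs_le] <;> constructor <;> omega

end Pool.Agent.Results.MP_5cfb27_co.Bounded
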